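import Pool.Agent.Q16.Cent.Example

/-!
# A countable centerless group with finite double centralizers whose Markov topology differs from
its centralizer topology
-/

open Set Topology

namespace Pool.Agent.Results.MP_ff84c4_al.MarkovNeCentralizer

/-- The Markov topology: a set is open iff it is open in every Hausdorff group topology. (In
Mathlib's order on topologies, `sSup` is the intersection of the families of open sets.) -/
@[instance_reducible]
def markovTopology (G : Type) [Group G] : TopologicalSpace G :=
  sSup {t : TopologicalSpace G | @IsTopologicalGroup G t _ ∧ @T2Space G t}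

/-- The centralizer topology, generated by the sets `{x | x b x⁻¹ = a b a⁻¹}`. -/
@[instance_reducible]
def centralizerTopology (G : Type) [Group G] : TopologicalSpace G :=
  TopologicalSpace.generateFrom {U | ∃ a b : G, U = {x : G | x * b * x⁻¹ = a * b * a⁻¹}}

/-- The double centralizer of every finite subset is finite. -/
def HasFiniteDoubleCentralizers (G : Type) [Group G] : Prop :=
  ∀ F : Set G, F.Finite → (Set.centralizer (Set.centralizer F)).Finite

/-- There is a countable group with trivial center and finite double centralizers whose Markov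
topology is different from its centralizer topology. -/
theorem result :
    ∃ (G : Type) (_ : Group G), Countable G ∧ Subgroup.center G = ⊥ ∧
      HasFiniteDoubleCentralizers G ∧ markovTopology G ≠ centralizerTopology G := by
  refine ⟨Q16.Cent.G, inferInstance, inferInstance, ?_, ?_, ?_⟩
  · rw [eq_bot_iff]
    intro z hz
    have h0 : z.1 ∈ Q16.Cent.S 0 := by
      apply Q16.Cent.mem_of_centralizes 0 z.1 z.2
      intro d hd _
      have h1 := (Subgroup.mem_center_iff.1 hz) ⟨d, hd⟩
      exact (congrArg Subtype.val h1).symm
    rw [Subgroup.mem_bot]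
    apply Subtype.ext
    apply Equiv.ext
    intro x
    funext i
    exact h0.1 x i (Nat.zero_le i)
  · intro F hF
    obtain ⟨n, hn⟩ : ∃ n, ∀ g ∈ F, g.1 ∈ Q16.Cent.S n := by
      have hk : ∀ g : Q16.Cent.G, ∃ k, g.1 ∈ Q16.Cent.S k := fun g => g.2
      choose k hk using hk
      obtain ⟨n, hn⟩ := (hF.image k).bddAbove
      exact ⟨n, fun g hg => Q16.Cent.S_mono (hn ⟨g, hg, rfl⟩) (hk g)⟩
    have hfin : {g : Q16.Cent.G | g.1 ∈ Q16.Cent.S n}.Finite :=
      (Q16.Cent.S_finite n).preimage Subtype.val_injective.injOn
    apply hfin.subset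
    intro g hg
    apply Q16.Cent.mem_of_centralizes n g.1 g.2
    intro d hd hcomm
    have hd' : (⟨d, hd⟩ : Q16.Cent.G) ∈ Set.centralizer F := by
      intro m hm
      exact Subtype.ext (hcomm m.1 (hn m hm))
    exact (congrArg Subtype.val (hg _ hd')).symm
  · intro heq
    have h1 : IsOpen[centralizerTopology Q16.Cent.G]
        {x : Q16.Cent.G | x * Q16.Cent.b * x⁻¹ = 1 * Q16.Cent.b * 1⁻¹} :=
      TopologicalSpace.isOpen_generateFrom_of_mem ⟨1, Q16.Cent.b, rfl⟩
    rw [← heq] at h1
    have h2 := isOpen_sSup_iff.1 h1 Q16.Cent.basis.topology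
      ⟨Q16.Cent.basis.isTopologicalGroup, Q16.Cent.t2⟩
    apply Q16.Cent.not_nhds
    let _ := Q16.Cent.basis.topology
    exact h2.mem_nhds rfl

end Pool.Agent.Results.MP_ff84c4_al.MarkovNeCentralizer
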